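import Pool.Agent.H78.ZFBridge

/-!
ZF proves that for an infinite set `A` there is no injection from the set of permutations of `A`
into `ω × A`; in particular `𝔞! < ℵ₀ · 𝔞` is impossible for every infinite cardinal `𝔞`.
The statement is given semantically: it holds in every model of ZF.
-/

set_option autoImplicit false

namespace Pool.Agent.Results.MP_113a4a_lc.SymNotLeAlephMul

open Pool.Agent.H78

universe u

/-- In every model `(M, ∈)` of ZF, for every infinite set `A` there is no injection from the set
`S` of all permutations of `A` to `P = ω × A`. -/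
theorem result : ∀ (M : Type u) [Membership M M] [ModelZF M] (w A S P : M),
    IsOmega w → IsInfiniteSet w A → IsSymSet S A → IsProduct P w A →
    ¬ ∃ f : M, IsInjection f S P := by
  intro M _ _ w A S P hw hA hS hP
  rw [isOmega_iff] at hw
  subst hw
  rw [isSymSet_iff] at hS
  subst hS
  rw [isProduct_iff] at hP
  subst hP
  have hinf : ∀ n : M, n ∈ om M → ¬ ∃ g : M, Bij g n A := by
    rintro n hn ⟨g, hg⟩
    exact hA n hn ⟨g, isBijection_iff.2 hg⟩
  rintro ⟨f, hf⟩
  exact no_inj hinf ⟨f, isInjection_iff.1 hf⟩

end Pool.Agent.Results.MP_113a4a_lc.SymNotLeAlephMul
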